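import Pool.Agent.W792.WA.Stm6

set_option autoImplicit false

namespace Pool.Agent.W469.WA.KB

open MeasureTheory Filter Pool.Agent.W792.LL Pool.Agent.W792.WA
open scoped Topology

/-- Orthogonality to powers of the cosine. -/
theorem orth (m : ℕ) : ∀ n : ℤ, m < n.natAbs →
    ∫ θ : UnitAddCircle, fourier n θ * (((fourier 1 θ).re : ℝ) : ℂ) ^ m
      ∂AddCircle.haarAddCircle = 0 := by
  induction m with
  | zero =>
    intro n hn
    have hn0 : n ≠ 0 := by
      intro h; rw [h] at hn; simp at hn
    simp only [pow_zero, mul_one]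
    exact integral_eq_zero_of_add_right_eq_neg (μ := AddCircle.haarAddCircle)
      (fourier_add_half_inv_index hn0 (Fact.out))
  | succ m ih =>
    intro n hn
    have h1 : ∀ θ : UnitAddCircle, fourier n θ * (((fourier 1 θ).re : ℝ) : ℂ) ^ (m + 1) =
        1 / 2 * (fourier (n + 1) θ * (((fourier 1 θ).re : ℝ) : ℂ) ^ m) +
        1 / 2 * (fourier (n + (-1)) θ * (((fourier 1 θ).re : ℝ) : ℂ) ^ m) := by
      intro θ
      have e : (((fourier 1 θ).re : ℝ) : ℂ) = (fourier 1 θ + fourier (-1) θ) / 2 := by
        rw [Complex.re_eq_add_conj, fourier_neg]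
      rw [fourier_add, fourier_add, pow_succ]
      conv_lhs => rw [e]
      rw [e]
      ring
    simp_rw [h1]
    have hc : Continuous fun θ : UnitAddCircle => (((fourier 1 θ).re : ℝ) : ℂ) ^ m := by fun_prop
    have hi : ∀ k : ℤ, Integrable (fun θ : UnitAddCircle => fourier k θ *
        (((fourier 1 θ).re : ℝ) : ℂ) ^ m) AddCircle.haarAddCircle := fun k =>
      Continuous.integrable_of_hasCompactSupport ((map_continuous (fourier k)).mul hc)
        (HasCompactSupport.of_compactSpace _)
    rw [integral_add ((hi _).const_mul _) ((hi _).const_mul _), integral_const_mul,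
      integral_const_mul, ih (n + 1) (by omega), ih (n + (-1)) (by omega)]
    simp

theorem main : S_KB := by
  refine ⟨2, by norm_num, ?_⟩
  intro t n htn
  set N := n.natAbs with hN
  have hNn : |(n : ℝ)| = (N : ℝ) := by
    rw [hN, Nat.cast_natAbs]
    push_cast
    rfl
  have ht : 2 * |t| ≤ (N : ℝ) / 4 := by
    rw [hNn] at htn; linarith
  -- the argument
  let w : UnitAddCircle → ℂ := fun θ => (-(2 * Complex.I * t)) * (((fourier 1 θ).re : ℝ) : ℂ)
  have hwc : Continuous w := by
    have : Continuous fun θ : UnitAddCircle => (((fourier 1 θ).re : ℝ) : ℂ) := by fun_prop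
    exact continuous_const.mul this
  have hwn : ∀ θ, ‖w θ‖ ≤ 2 * |t| := by
    intro θ
    simp only [w]
    rw [norm_mul, norm_neg, norm_mul, norm_mul, Complex.norm_I, Complex.norm_real, Complex.norm_real]
    have h1 : ‖(fourier 1 θ : ℂ).re‖ ≤ 1 := by
      refine (Complex.abs_re_le_norm _).trans ?_
      rw [fourier_apply]
      exact (Circle.norm_coe _).le
    have h2 : ‖(2 : ℂ)‖ = 2 := by norm_num
    rw [h2, mul_one, Real.norm_eq_abs t]
    have := abs_nonneg t
    nlinarith [norm_nonneg ((fourier 1 θ : ℂ).re)]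
  let P : UnitAddCircle → ℂ := fun θ => ∑ m ∈ Finset.range N, w θ ^ m / (m.factorial : ℂ)
  have hPc : Continuous P := by
    refine continuous_finsetSum _ fun m _ => ?_
    exact (hwc.pow m).div_const _
  have hEc : Continuous fun θ => Complex.exp (w θ) := Complex.continuous_exp.comp hwc
  have hfc : Continuous fun θ : UnitAddCircle => (fourier n θ : ℂ) := map_continuous (fourier n)
  have hi1 : Integrable (fun θ => fourier n θ * (Complex.exp (w θ) - P θ))
      AddCircle.haarAddCircle :=
    Continuous.integrable_of_hasCompactSupport (hfc.mul (hEc.sub hPc))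
      (HasCompactSupport.of_compactSpace _)
  have hi2 : Integrable (fun θ => fourier n θ * P θ) AddCircle.haarAddCircle :=
    Continuous.integrable_of_hasCompactSupport (hfc.mul hPc) (HasCompactSupport.of_compactSpace _)
  have hP0 : ∫ θ, fourier n θ * P θ ∂AddCircle.haarAddCircle = 0 := by
    have e : ∀ θ, fourier n θ * P θ = ∑ m ∈ Finset.range N,
        ((-(2 * Complex.I * t)) ^ m / (m.factorial : ℂ)) *
          (fourier n θ * (((fourier 1 θ).re : ℝ) : ℂ) ^ m) := by
      intro θ
      simp only [P, w]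
      rw [Finset.mul_sum]
      refine Finset.sum_congr rfl fun m _ => ?_
      rw [mul_pow]
      ring
    simp_rw [e]
    rw [integral_finsetSum]
    · refine Finset.sum_eq_zero fun m hm => ?_
      rw [integral_const_mul, orth m n (Finset.mem_range.1 hm), mul_zero]
    · intro m _
      refine Integrable.const_mul ?_ _
      have hc : Continuous fun θ : UnitAddCircle => (((fourier 1 θ).re : ℝ) : ℂ) ^ m := by fun_prop
      exact Continuous.integrable_of_hasCompactSupport (hfc.mul hc)
        (HasCompactSupport.of_compactSpace _)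
  have hk : k1 t n = Complex.exp (2 * Complex.I * t) *
      ∫ θ, fourier n θ * (Complex.exp (w θ) - P θ) ∂AddCircle.haarAddCircle := by
    have h1 : ∫ θ, fourier n θ * (Complex.exp (w θ) - P θ) ∂AddCircle.haarAddCircle =
        ∫ θ, fourier n θ * Complex.exp (w θ) ∂AddCircle.haarAddCircle := by
      have h2 : ∀ θ, fourier n θ * Complex.exp (w θ) =
          fourier n θ * (Complex.exp (w θ) - P θ) + fourier n θ * P θ := by
        intro θ; ring
      simp_rw [h2]
      rw [integral_add hi1 hi2, hP0, add_zero]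
    rw [h1, ← integral_const_mul]
    unfold k1
    refine integral_congr_ae (Filter.Eventually.of_forall fun θ => ?_)
    simp only [w]
    have h3 : Complex.exp (Complex.I * t * ((2 - 2 * (fourier 1 θ).re : ℝ) : ℂ)) =
        Complex.exp (2 * Complex.I * t) *
          Complex.exp (-(2 * Complex.I * t) * (((fourier 1 θ).re : ℝ) : ℂ)) := by
      rw [← Complex.exp_add]
      congr 1
      push_cast
      ring
    rw [h3]
    ring
  have hexp1 : ‖Complex.exp (2 * Complex.I * t)‖ = 1 := by
    have : (2 * Complex.I * t : ℂ) = ((2 * t : ℝ) : ℂ) * Complex.I := by push_cast; ring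
    rw [this, Complex.norm_exp_ofReal_mul_I]
  rw [hk, norm_mul, hexp1, one_mul]
  have hbound : ∀ θ, ‖fourier n θ * (Complex.exp (w θ) - P θ)‖ ≤ 2 * (4 / 5) ^ N := by
    intro θ
    have h1 : ‖(fourier n θ : ℂ)‖ = 1 := by rw [fourier_apply]; exact Circle.norm_coe _
    rw [norm_mul, h1, one_mul]
    have hN0 : (0:ℝ) ≤ N := Nat.cast_nonneg _
    have h2 : ‖w θ‖ / (N.succ : ℝ) ≤ 1 / 2 := by
      have h3 := hwn θ
      rw [div_le_div_iff₀ (by positivity) (by norm_num)]
      push_cast
      nlinarith
    have h4 := Complex.exp_bound' h2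
    refine h4.trans ?_
    have h5 : ‖w θ‖ ^ N ≤ ((N : ℝ) / 4) ^ N :=
      pow_le_pow_left₀ (norm_nonneg _) ((hwn θ).trans ht) N
    have h6 : (N : ℝ) ^ N / (N.factorial : ℝ) ≤ Real.exp N :=
      Real.pow_div_factorial_le_exp (N : ℝ) hN0 N
    have h7 : Real.exp N = (Real.exp 1) ^ N := by
      rw [← Real.exp_nat_mul, mul_one]
    have h8 : Real.exp 1 / 4 ≤ 4 / 5 := by
      have := Real.exp_one_lt_d9
      linarith
    have hf : (0:ℝ) < (N.factorial : ℝ) := by positivity
    calc ‖w θ‖ ^ N / (N.factorial : ℝ) * 2 ≤ ((N : ℝ) / 4) ^ N / (N.factorial : ℝ) * 2 := by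
          gcongr
      _ = 2 * ((N : ℝ) ^ N / (N.factorial : ℝ)) / 4 ^ N := by rw [div_pow]; field_simp
      _ ≤ 2 * (Real.exp 1) ^ N / 4 ^ N := by
          rw [← h7]; gcongr
      _ = 2 * (Real.exp 1 / 4) ^ N := by rw [div_pow]; ring
      _ ≤ 2 * (4 / 5) ^ N := by
          gcongr
  have hfin := norm_integral_le_of_norm_le_const (μ := (AddCircle.haarAddCircle : Measure UnitAddCircle))
    (Filter.Eventually.of_forall hbound)
  simpa using hfin

end Pool.Agent.W469.WA.KB
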